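import Mathlib

/-!
# Cash thresholds of interval subtraction games are eventually quasi-periodic

With `M = L + G`, `P = L + M`, `n = k P + j`, `0 ≤ j < P`, the threshold `f_I(n)` equals
`k L` if `j + k G < L`, `(k + 1) L` if `L ≤ j + k G < 2 L`, and `k M + j - (L - 1)` otherwise.
-/

namespace Pool.Agent.Results.MP_88cfb8_co.QuasiPeriodic

/-- The legal moves from a pile of `n` stones in the subtraction game on `A = {L, …, M}`. -/
def moves (L M n : ℕ) : Finset ℕ := (Finset.Icc L M).filter fun a => 1 ≤ a ∧ a ≤ n

theorem mem_moves {L M n a : ℕ} : a ∈ moves L M n ↔ (L ≤ a ∧ a ≤ M) ∧ 1 ≤ a ∧ a ≤ n := by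
  simp [moves]

/-- `WinI L M n`: `W_A(n) = I`, the player to move wins the subtraction game on `A = {L, …, M}` from
a pile of `n` stones (some legal move leads to a pile from which the player to move does not
win); otherwise `W_A(n) = II`. -/
def WinI (L M n : ℕ) : Prop := ∃ a, ∃ _ha : a ∈ moves L M n, ¬ WinI L M (n - a)
termination_by n
decreasing_by have := (mem_moves.1 _ha).2; omega

open Classical in
/-- The cash thresholds `(f_I(n), f_II(n))` of the problem:
`(0, 0)` for `n < L`; for `n ≥ L`, `f_II(n)` is the maximum of `f_I(n - a)` over the legal `a`;
`f_I(n)` is the minimum of `f_II(n - a) + a` over the legal `a` with `W_A(n - a) = II` if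
`W_A(n) = I`, and over the legal `a` with `f_I(n - a) = f_II(n)` if `W_A(n) = II`. -/
noncomputable def f (L M n : ℕ) : ℕ × ℕ :=
  if n < L then (0, 0) else
    let f₂ : ℕ := sSup {x | ∃ a, ∃ _ha : a ∈ moves L M n, x = (f L M (n - a)).1}
    let f₁ : ℕ :=
      if WinI L M n then
        sInf {x | ∃ a, ∃ _ha : a ∈ moves L M n, ¬ WinI L M (n - a) ∧ x = (f L M (n - a)).2 + a}
      else
        sInf {x | ∃ a, ∃ _ha : a ∈ moves L M n, (f L M (n - a)).1 = f₂ ∧
          x = (f L M (n - a)).2 + a}
    (f₁, f₂)
termination_by n
decreasing_by all_goals (have := (mem_moves.1 _ha).2; omega)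

/-- `f_I` -/
noncomputable def fI (L M n : ℕ) : ℕ := (f L M n).1

/-- `f_II` -/
noncomputable def fII (L M n : ℕ) : ℕ := (f L M n).2

section
variable {L G : ℕ}

theorem winI_iff (hL : 1 ≤ L) (k : ℕ) (j : ℕ) (hj : j < 2 * L + G) :
    WinI L (L + G) (k * (2 * L + G) + j) ↔ L ≤ j := by
  generalize hn : k * (2 * L + G) + j = n
  induction n using Nat.strong_induction_on generalizing k j with
  | _ n ih =>
    rw [WinI]
    constructor
    · rintro ⟨a, ha, hw⟩
      by_contra hlt
      push Not at hlt
      obtain ⟨⟨h1, h2⟩, h3, h4⟩ := mem_moves.1 ha
      apply hw
      -- `k ≥ 1`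
      rcases k with _ | k
      · omega
      · have e : k * (2 * L + G) + (j + (2 * L + G) - a) = n - a := by
          rw [Nat.succ_mul] at hn
          omega
        exact (ih (n - a) (by omega) k _ (by omega) e).2 (by omega)
    · intro hle
      by_cases hc : j ≤ L + G
      · refine ⟨j, mem_moves.2 ⟨⟨hle, hc⟩, by omega, by omega⟩, ?_⟩
        rw [ih (n - j) (by omega) k 0 (by omega) (by omega)]
        omega
      · refine ⟨L + G, mem_moves.2 ⟨⟨by omega, le_rfl⟩, by omega, by omega⟩, ?_⟩
        rw [ih (n - (L + G)) (by omega) k (j - (L + G)) (by omega) (by omega)]
        omega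

/-- closed form of `f_I (k P + j)` -/
def F1 (L G k j : ℕ) : ℕ :=
  if j + k * G < L then k * L else if j + k * G < 2 * L then k * L + L
    else k * L + k * G + j + 1 - L

/-- closed form of `f_II (k P + j)` -/
def F2 (L G k j : ℕ) : ℕ :=
  if j < L then (if j + k * G < L then k * L else k * L + k * G + j + 1 - L)
  else if j < L + G then max (k * L + k * G) (F1 L G k (j - L)) else F1 L G k (j - L)

theorem sSup_eq {X : Set ℕ} {x : ℕ} (h1 : x ∈ X) (h2 : ∀ y ∈ X, y ≤ x) : sSup X = x :=
  le_antisymm (csSup_le ⟨x, h1⟩ h2) (le_csSup ⟨x, h2⟩ h1)

theorem sInf_eq {X : Set ℕ} {x : ℕ} (h1 : x ∈ X) (h2 : ∀ y ∈ X, x ≤ y) : sInf X = x :=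
  le_antisymm (Nat.sInf_le h1) (h2 _ (Nat.sInf_mem ⟨x, h1⟩))

theorem f_eq (hL : 1 ≤ L) (k : ℕ) (j : ℕ) (hj : j < 2 * L + G) :
    f L (L + G) (k * (2 * L + G) + j) = (F1 L G k j, F2 L G k j) := by
  generalize hn : k * (2 * L + G) + j = n
  induction n using Nat.strong_induction_on generalizing k j with
  | _ n ih =>
    rw [f]
    by_cases hnL : n < L
    · rw [if_pos hnL]
      have hk : k = 0 := by
        rcases k with _ | k
        · rfl
        · rw [Nat.succ_mul] at hn; omega
      subst hk
      have hjL : j < L := by omega
      simp [F1, F2, hjL]
    · rw [if_neg hnL]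
      -- the values at the options
      have same : ∀ a, a ∈ moves L (L + G) n → a ≤ j →
          f L (L + G) (n - a) = (F1 L G k (j - a), F2 L G k (j - a)) := by
        intro a ha haj
        have := mem_moves.1 ha
        exact ih (n - a) (by omega) k (j - a) (by omega) (by omega)
      have prev : ∀ a, a ∈ moves L (L + G) n → j < a → ∃ k', k = k' + 1 ∧
          f L (L + G) (n - a) =
            (F1 L G k' (j + (2 * L + G) - a), F2 L G k' (j + (2 * L + G) - a)) := by
        intro a ha haj
        have hm := mem_moves.1 ha
        rcases k with _ | k'
        · omega
        · refine ⟨k', rfl, ?_⟩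
          rw [Nat.succ_mul] at hn
          exact ih (n - a) (by omega) k' _ (by omega) (by omega)
      -- the maximum
      have hf2 : sSup {x | ∃ a, ∃ _ha : a ∈ moves L (L + G) n, x = (f L (L + G) (n - a)).1} =
          F2 L G k j := by
        apply sSup_eq
        · by_cases h1 : j < L
          · -- previous block
            have hk : 1 ≤ k := by
              rcases k with _ | k
              · omega
              · omega
            have ha : L ∈ moves L (L + G) n := mem_moves.2 ⟨⟨le_rfl, by omega⟩, hL, by omega⟩
            refine ⟨L, ha, ?_⟩
            obtain ⟨k', rfl, e⟩ := prev L ha h1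
            rw [e]
            simp only [F1, F2, Nat.succ_mul]
            generalize k' * L = x at *
            generalize k' * G = y at *
            split_ifs <;> omega
          · by_cases h2 : j < L + G
            · by_cases h3 : k * L + k * G ≤ F1 L G k (j - L)
              · have ha : L ∈ moves L (L + G) n := mem_moves.2 ⟨⟨le_rfl, by omega⟩, hL, by omega⟩
                refine ⟨L, ha, ?_⟩
                rw [same L ha (by omega)]
                simp only [F2, if_neg h1, if_pos h2]
                rw [max_eq_right h3]
              · have hk : 1 ≤ k := by
                  rcases k with _ | k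
                  · simp at h3
                  · omega
                have hn' : 2 * L + G ≤ k * (2 * L + G) := Nat.le_mul_of_pos_left _ hk
                have ha : j + 1 ∈ moves L (L + G) n :=
                  mem_moves.2 ⟨⟨by omega, by omega⟩, by omega, by omega⟩
                refine ⟨j + 1, ha, ?_⟩
                obtain ⟨k', rfl, e⟩ := prev (j + 1) ha (by omega)
                rw [e]
                simp only [F2, if_neg h1, if_pos h2]
                rw [max_eq_left (by omega)]
                simp only [F1, Nat.succ_mul]
                have hG : 1 ≤ G := by omega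
                generalize k' * L = x at *
                generalize k' * G = y at *
                split_ifs <;> omega
            · have ha : L ∈ moves L (L + G) n := mem_moves.2 ⟨⟨le_rfl, by omega⟩, hL, by omega⟩
              refine ⟨L, ha, ?_⟩
              rw [same L ha (by omega)]
              simp only [F2, if_neg h1, if_neg h2]
        · rintro y ⟨a, ha, rfl⟩
          have hm := mem_moves.1 ha
          by_cases haj : a ≤ j
          · rw [same a ha haj]
            simp only [F1, F2]
            generalize k * L = x at *
            generalize k * G = y at *
            split_ifs <;> omega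
          · obtain ⟨k', rfl, e⟩ := prev a ha (by omega)
            rw [e]
            simp only [F1, F2, Nat.succ_mul]
            generalize k' * L = x at *
            generalize k' * G = y at *
            split_ifs <;> omega
      -- the minimum
      have hwin := winI_iff (G := G) hL k j hj
      rw [hn] at hwin
      simp only [hf2]
      refine Prod.ext ?_ rfl
      simp only
      by_cases hjL : L ≤ j
      · rw [if_pos (hwin.2 hjL)]
        apply sInf_eq
        · -- attained
          by_cases h1 : j + k * G < 2 * L
          · have ha : L ∈ moves L (L + G) n := mem_moves.2 ⟨⟨le_rfl, by omega⟩, hL, by omega⟩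
            refine ⟨L, ha, ?_, ?_⟩
            · have := winI_iff (G := G) hL k (j - L) (by omega)
              rw [show k * (2 * L + G) + (j - L) = n - L by omega] at this
              rw [this]; omega
            · rw [same L ha hjL]
              simp only [F1, F2]
              generalize k * L = x at *
              generalize k * G = y at *
              split_ifs <;> omega
          · have ha : j + 1 - L ∈ moves L (L + G) n ∨ L ∈ moves L (L + G) n ∧ j < 2 * L := by
              by_cases h2 : j < 2 * L
              · exact Or.inr ⟨mem_moves.2 ⟨⟨le_rfl, by omega⟩, hL, by omega⟩, h2⟩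
              · exact Or.inl (mem_moves.2 ⟨⟨by omega, by omega⟩, by omega, by omega⟩)
            rcases ha with ha | ⟨ha, h2⟩
            · refine ⟨j + 1 - L, ha, ?_, ?_⟩
              · have := winI_iff (G := G) hL k (L - 1) (by omega)
                rw [show k * (2 * L + G) + (L - 1) = n - (j + 1 - L) by omega] at this
                rw [this]; omega
              · rw [same _ ha (by omega)]
                simp only [F1, F2]
                generalize k * L = x at *
                generalize k * G = y at *
                split_ifs <;> omega
            · refine ⟨L, ha, ?_, ?_⟩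
              · have := winI_iff (G := G) hL k (j - L) (by omega)
                rw [show k * (2 * L + G) + (j - L) = n - L by omega] at this
                rw [this]; omega
              · rw [same L ha hjL]
                simp only [F1, F2]
                generalize k * L = x at *
                generalize k * G = y at *
                split_ifs <;> omega
        · rintro y ⟨a, ha, hw, rfl⟩
          have hm := mem_moves.1 ha
          have haj : a ≤ j := by
            by_contra hc
            -- then `n - a` lies in the previous block with index `≥ L`
            rcases k with _ | k'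
            · omega
            · have := winI_iff (G := G) hL k' (j + (2 * L + G) - a) (by omega)
              rw [Nat.succ_mul] at hn
              rw [show k' * (2 * L + G) + (j + (2 * L + G) - a) = n - a by omega] at this
              exact hw (this.2 (by omega))
          have hjaL : j - a < L := by
            have := winI_iff (G := G) hL k (j - a) (by omega)
            rw [show k * (2 * L + G) + (j - a) = n - a by omega] at this
            by_contra hc
            exact hw (this.2 (by omega))
          rw [same a ha haj]
          simp only [F1, F2]
          generalize k * L = x at *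
          generalize k * G = y at *
          split_ifs <;> omega
      · rw [if_neg (fun h => hjL (hwin.1 h))]
        have hk : 1 ≤ k := by
          rcases k with _ | k
          · omega
          · omega
        have ha : L ∈ moves L (L + G) n := mem_moves.2 ⟨⟨le_rfl, by omega⟩, hL, by omega⟩
        apply sInf_eq
        · refine ⟨L, ha, ?_, ?_⟩
          · obtain ⟨k', rfl, e⟩ := prev L ha (by omega)
            rw [e]
            simp only [F1, F2, Nat.succ_mul]
            generalize k' * L = x at *
            generalize k' * G = y at *
            split_ifs <;> omega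
          · obtain ⟨k', rfl, e⟩ := prev L ha (by omega)
            rw [e]
            simp only [F1, F2, Nat.succ_mul]
            generalize k' * L = x at *
            generalize k' * G = y at *
            split_ifs <;> omega
        · rintro y ⟨a, ha, he, rfl⟩
          have hm := mem_moves.1 ha
          obtain ⟨k', rfl, e⟩ := prev a ha (by omega)
          rw [e] at he ⊢
          by_cases hA : j + (k' + 1) * G < L
          · have h1 : F1 L G (k' + 1) j = (k' + 1) * L := by rw [F1, if_pos hA]
            have h2 : k' * L ≤ F2 L G k' (j + (2 * L + G) - a) := by
              simp only [F2, F1]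
              generalize k' * L = x at *
              generalize k' * G = y at *
              split_ifs <;> omega
            have h3 : (k' + 1) * L = k' * L + L := Nat.succ_mul _ _
            simp only
            omega
          · have haL : a = L := by
              have h1 : F2 L G (k' + 1) j = (k' + 1) * L + (k' + 1) * G + j + 1 - L := by
                rw [F2, if_pos (by omega), if_neg hA]
              rw [h1] at he
              simp only [F1, Nat.succ_mul] at he hA
              generalize k' * L = x at *
              generalize k' * G = y at *
              split_ifs at he <;> omega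
            subst haL
            clear he
            simp only [F1, F2, Nat.succ_mul]
            generalize k' * a = x at *
            generalize k' * G = y at *
            split_ifs <;> omega

end

/-- **Eventual quasi-periodicity of the cash thresholds.**  For all `1 ≤ L ≤ M` there is `Θ` with
`f_I(n + L + M) = f_I(n) + M` and `f_II(n + L + M) = f_II(n) + M` for all `n ≥ Θ`. -/
theorem result (L M : ℕ) (hL : 1 ≤ L) (hLM : L ≤ M) :
    ∃ Θ : ℕ, ∀ n, Θ ≤ n →
      fI L M (n + L + M) = fI L M n + M ∧ fII L M (n + L + M) = fII L M n + M := by
  obtain ⟨G, rfl⟩ := Nat.exists_eq_add_of_le hLM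
  refine ⟨2 * L * (2 * L + G), fun n hn => ?_⟩
  have hP : 0 < 2 * L + G := by omega
  obtain ⟨k, j, hj, rfl⟩ : ∃ k j, j < 2 * L + G ∧ n = k * (2 * L + G) + j :=
    ⟨n / (2 * L + G), n % (2 * L + G), Nat.mod_lt _ hP, by
      rw [mul_comm]; exact (Nat.div_add_mod n _).symm⟩
  have hk : 2 * L ≤ k := by
    by_contra hc
    push Not at hc
    have h1 : (k + 1) * (2 * L + G) ≤ 2 * L * (2 * L + G) := Nat.mul_le_mul_right _ hc
    have h2 : (k + 1) * (2 * L + G) = k * (2 * L + G) + (2 * L + G) := Nat.succ_mul _ _
    generalize (k + 1) * (2 * L + G) = z at *
    generalize k * (2 * L + G) = w at *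
    generalize 2 * L * (2 * L + G) = v at *
    omega
  have e1 : k * (2 * L + G) + j + L + (L + G) = (k + 1) * (2 * L + G) + j := by
    have h2 : (k + 1) * (2 * L + G) = k * (2 * L + G) + (2 * L + G) := Nat.succ_mul _ _
    omega
  unfold fI fII
  rw [e1, f_eq hL (k + 1) j hj, f_eq hL k j hj]
  have hGk : G = 0 ∨ 2 * L ≤ k * G := by
    rcases Nat.eq_zero_or_pos G with h | h
    · exact Or.inl h
    · right
      calc 2 * L ≤ k := hk
        _ ≤ k * G := Nat.le_mul_of_pos_right _ h
  simp only [F1, F2, Nat.succ_mul]
  rcases hGk with h | h
  · subst h
    simp only [Nat.mul_zero, Nat.add_zero]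
    generalize k * L = x at *
    constructor <;> split_ifs <;> omega
  · generalize k * L = x at *
    generalize k * G = y at *
    constructor <;> split_ifs <;> omega

end Pool.Agent.Results.MP_88cfb8_co.QuasiPeriodic
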